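import Pool.Agent.H80.EG.Defs

/-!
# A certificate for Bob

`H ≤ G`, a set of useful pairs (vertex, colour) such that every edge of `H` has a useful end for every
colour, and for every colour a perfect matching (by edges of `H`, different colours use different
edges) of the vertices which are useful for this colour. Bob colours such a matching edge with its
colour as long as one is available.
-/

set_option autoImplicit false

namespace EG

open Finset

/-- Certificate. -/
structure Cert {V : Type} (G H : SimpleGraph V) (k : ℕ) where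
  le : ∀ v w, H.Adj v w → G.Adj v w
  useful : V → Fin k → Prop
  cover : ∀ v w c, H.Adj v w → useful v c ∨ useful w c
  par : V → Fin k → V
  par_adj : ∀ v c, useful v c → H.Adj v (par v c)
  par_useful : ∀ v c, useful v c → useful (par v c) c
  par_par : ∀ v c, useful v c → par (par v c) c = v
  par_inj : ∀ v c d, useful v c → useful v d → par v c = par v d → c = d

section

variable {V : Type} {G H : SimpleGraph V} {k : ℕ}

/-- the colour `c` is used at `v` -/
def Used (G : SimpleGraph V) (f : Sym2 V → Option (Fin k)) (v : V) (c : Fin k) : Prop :=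
  ∃ w, G.Adj v w ∧ f s(v, w) = some c

/-- the partial colouring is proper -/
def Proper (G : SimpleGraph V) (f : Sym2 V → Option (Fin k)) : Prop :=
  ∀ v w w' c, G.Adj v w → G.Adj v w' → f s(v, w) = some c → f s(v, w') = some c → w = w'

theorem Legal.not_used {f : Sym2 V → Option (Fin k)} {v w : V} {c : Fin k}
    (h : Legal G f s(v, w) c) : ¬ Used G f v c ∧ ¬ Used G f w c := by
  obtain ⟨_, _, h3⟩ := h
  constructor
  · rintro ⟨x, hx, hf⟩
    exact h3 s(v, x) (by simpa using hx) ⟨v, by simp, by simp⟩ hf
  · rintro ⟨x, hx, hf⟩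
    exact h3 s(w, x) (by simpa using hx) ⟨w, by simp, by simp⟩ hf

theorem legal_of_not_used {f : Sym2 V → Option (Fin k)} {v w : V} {c : Fin k}
    (hadj : G.Adj v w) (hn : f s(v, w) = none) (hv : ¬ Used G f v c) (hw : ¬ Used G f w c) :
    Legal G f s(v, w) c := by
  refine ⟨by simpa using hadj, hn, ?_⟩
  rintro e' he' ⟨x, hx, hx'⟩ hf
  obtain ⟨y, rfl⟩ := Sym2.mem_iff_exists.1 hx'
  have hadj' : G.Adj x y := by simpa using he'
  rcases Sym2.mem_iff.1 hx with rfl | rfl
  · exact hv ⟨y, hadj', hf⟩
  · exact hw ⟨y, hadj', hf⟩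

end

section

variable {V : Type} {G H : SimpleGraph V} {k : ℕ} [Fintype V] (C : Cert G H k)

open Classical

/-- the useful pairs -/
noncomputable def Cert.U : Finset (V × Fin k) := univ.filter fun p => C.useful p.1 p.2

/-- the ordered edges of `H` -/
noncomputable def Cert.A (_ : Cert G H k) : Finset (V × V) := univ.filter fun p => H.Adj p.1 p.2

/-- the available targets, as useful pairs -/
noncomputable def Cert.S (f : Sym2 V → Option (Fin k)) : Finset (V × Fin k) :=
  univ.filter fun p => C.useful p.1 p.2 ∧ ¬ Used G f p.1 p.2 ∧ ¬ Used G f (C.par p.1 p.2) p.2 ∧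
    f s(p.1, C.par p.1 p.2) = none

/-- the ordered edges of `H` both of whose ends are useful for the colour of the edge -/
noncomputable def Cert.D (f : Sym2 V → Option (Fin k)) : Finset (V × V) :=
  univ.filter fun p => H.Adj p.1 p.2 ∧ ∃ c, f s(p.1, p.2) = some c ∧ C.useful p.1 c ∧ C.useful p.2 c

variable {C}

theorem mem_S {f : Sym2 V → Option (Fin k)} {p : V × Fin k} : p ∈ C.S f ↔
    C.useful p.1 p.2 ∧ ¬ Used G f p.1 p.2 ∧ ¬ Used G f (C.par p.1 p.2) p.2 ∧
    f s(p.1, C.par p.1 p.2) = none := by
  simp [Cert.S]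

theorem mem_D {f : Sym2 V → Option (Fin k)} {p : V × V} : p ∈ C.D f ↔
    H.Adj p.1 p.2 ∧ ∃ c, f s(p.1, p.2) = some c ∧ C.useful p.1 c ∧ C.useful p.2 c := by
  simp [Cert.D]

omit [Fintype V] in
theorem used_update {f : Sym2 V → Option (Fin k)} {v w x : V} {c d : Fin k}
    (h : Used G (Function.update f s(v, w) (some c)) x d) (hn : ¬ Used G f x d) :
    (x = v ∨ x = w) ∧ d = c := by
  obtain ⟨y, hy, hf⟩ := h
  by_cases he : s(x, y) = s(v, w)
  · rw [he, Function.update_self] at hf
    refine ⟨?_, (Option.some_injective _ hf).symm⟩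
    rcases Sym2.eq_iff.1 he with ⟨h1, _⟩ | ⟨h1, _⟩
    · exact Or.inl h1
    · exact Or.inr h1
  · rw [Function.update_of_ne he] at hf
    exact absurd ⟨y, hy, hf⟩ hn

theorem D_mono {f : Sym2 V → Option (Fin k)} {e : Sym2 V} {c : Fin k} (h : f e = none) :
    C.D f ⊆ C.D (Function.update f e (some c)) := by
  intro p hp
  rw [mem_D] at hp ⊢
  obtain ⟨h1, d, h2, h3⟩ := hp
  refine ⟨h1, d, ?_, h3⟩
  rw [Function.update_of_ne]
  · exact h2
  · intro he
    rw [he, h] at h2
    simp at h2

/-- the number of double edges grows by two when a double edge is coloured -/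
theorem D_double {f : Sym2 V → Option (Fin k)} {v w : V} {c : Fin k} (h : f s(v, w) = none)
    (hH : H.Adj v w) (hv : C.useful v c) (hw : C.useful w c) :
    (C.D f).card + 2 ≤ (C.D (Function.update f s(v, w) (some c))).card := by
  have hne : (v, w) ≠ (w, v) := by
    intro he
    exact hH.ne (Prod.mk.inj he).1
  have h1 : insert (v, w) (insert (w, v) (C.D f)) ⊆ C.D (Function.update f s(v, w) (some c)) := by
    intro p hp
    rw [mem_insert, mem_insert] at hp
    rcases hp with rfl | rfl | hp
    · rw [mem_D]
      exact ⟨hH, c, by simp, hv, hw⟩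
    · rw [mem_D]
      refine ⟨hH.symm, c, ?_, hw, hv⟩
      rw [Sym2.eq_swap]
      simp
    · exact D_mono h hp
  have h2 : (w, v) ∉ C.D f := by
    intro hm
    rw [mem_D] at hm
    obtain ⟨_, d, h3, _⟩ := hm
    simp only at h3
    rw [Sym2.eq_swap, h] at h3
    simp at h3
  have h3 : (v, w) ∉ insert (w, v) (C.D f) := by
    rw [mem_insert, not_or]
    refine ⟨hne, fun hm => ?_⟩
    rw [mem_D] at hm
    obtain ⟨_, d, h3, _⟩ := hm
    simp only at h3
    rw [h] at h3
    simp at h3
  have := card_le_card h1
  rw [card_insert_of_notMem h3, card_insert_of_notMem h2] at this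
  omega

/-- the possible losses -/
theorem S_loss {f : Sym2 V → Option (Fin k)} {v w : V} {c : Fin k} {p : V × Fin k}
    (hp : p ∈ C.S f) (hp' : p ∉ C.S (Function.update f s(v, w) (some c))) :
    (p = (v, c) ∧ C.useful v c) ∨ (p = (w, c) ∧ C.useful w c) ∨
    (p = (C.par v c, c) ∧ C.useful v c) ∨ (p = (C.par w c, c) ∧ C.useful w c) ∨
    (p.1 = v ∧ C.useful v p.2 ∧ C.par v p.2 = w) ∨ (p.1 = w ∧ C.useful w p.2 ∧ C.par w p.2 = v) := by
  obtain ⟨x, d⟩ := p
  rw [mem_S] at hp hp'
  obtain ⟨h1, h2, h3, h4⟩ := hp
  simp only at h1 h2 h3 h4 hp'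
  by_cases a1 : Used G (Function.update f s(v, w) (some c)) x d
  · obtain ⟨hx, rfl⟩ := used_update a1 h2
    rcases hx with rfl | rfl
    · exact Or.inl ⟨rfl, h1⟩
    · exact Or.inr (Or.inl ⟨rfl, h1⟩)
  by_cases a2 : Used G (Function.update f s(v, w) (some c)) (C.par x d) d
  · obtain ⟨hx, rfl⟩ := used_update a2 h3
    have h5 := C.par_useful x d h1
    have h6 := C.par_par x d h1
    rcases hx with hx | hx
    · rw [hx] at h5 h6
      exact Or.inr (Or.inr (Or.inl ⟨by rw [h6], h5⟩))
    · rw [hx] at h5 h6
      exact Or.inr (Or.inr (Or.inr (Or.inl ⟨by rw [h6], h5⟩)))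
  have a3 : ¬ (Function.update f s(v, w) (some c)) s(x, C.par x d) = none := fun h => hp' ⟨h1, a1, a2, h⟩
  by_cases he : s(x, C.par x d) = s(v, w)
  · rcases Sym2.eq_iff.1 he with ⟨e1, e2⟩ | ⟨e1, e2⟩
    · subst e1
      exact Or.inr (Or.inr (Or.inr (Or.inr (Or.inl ⟨rfl, h1, e2⟩))))
    · subst e1
      exact Or.inr (Or.inr (Or.inr (Or.inr (Or.inr ⟨rfl, h1, e2⟩))))
  · rw [Function.update_of_ne he] at a3
    exact absurd h4 a3

/-- target colours of an edge -/
private theorem tgt_card (v w : V) : ((univ : Finset (V × Fin k)).filter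
    (fun p => p.1 = v ∧ C.useful v p.2 ∧ C.par v p.2 = w)).card ≤ 1 := by
  rw [card_le_one]
  rintro ⟨x, d⟩ hx ⟨y, d'⟩ hy
  simp only [mem_filter, mem_univ, true_and] at hx hy
  obtain ⟨rfl, h1, h2⟩ := hx
  obtain ⟨rfl, h3, h4⟩ := hy
  rw [C.par_inj _ _ _ h1 h3 (h2.trans h4.symm)]

/-- an arbitrary move -/
theorem step_any {f : Sym2 V → Option (Fin k)} {e : Sym2 V} {c : Fin k} (hL : Legal G f e c) :
    (C.S f).card + 3 * (C.D f).card ≤
      (C.S (Function.update f e (some c))).card + 3 * (C.D (Function.update f e (some c))).card + 4 := by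
  induction e using Sym2.ind with
  | _ v w =>
  obtain ⟨hadj, hnone, _⟩ := hL
  set f' := Function.update f s(v, w) (some c) with hf'
  have hD := card_le_card (D_mono (C := C) (c := c) hnone)
  rw [← hf'] at hD
  -- the set of losses
  set K1 : Finset (V × Fin k) := if C.useful v c then {(v, c), (C.par v c, c)} else ∅ with hK1
  set K2 : Finset (V × Fin k) := if C.useful w c then {(w, c), (C.par w c, c)} else ∅ with hK2
  set K3 : Finset (V × Fin k) := if H.Adj v w then
    (univ.filter (fun p => p.1 = v ∧ C.useful v p.2 ∧ C.par v p.2 = w)) ∪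
    (univ.filter (fun p => p.1 = w ∧ C.useful w p.2 ∧ C.par w p.2 = v)) else ∅ with hK3
  have hsub : C.S f ⊆ C.S f' ∪ (K1 ∪ K2 ∪ K3) := by
    intro p hp
    by_cases hp' : p ∈ C.S f'
    · exact mem_union_left _ hp'
    · apply mem_union_right
      rcases S_loss hp hp' with ⟨h, hu⟩ | ⟨h, hu⟩ | ⟨h, hu⟩ | ⟨h, hu⟩ | h | h
      · rw [h]; apply mem_union_left; apply mem_union_left; rw [hK1, if_pos hu]; simp
      · rw [h]; apply mem_union_left; apply mem_union_right; rw [hK2, if_pos hu]; simp
      · rw [h]; apply mem_union_left; apply mem_union_left; rw [hK1, if_pos hu]; simp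
      · rw [h]; apply mem_union_left; apply mem_union_right; rw [hK2, if_pos hu]; simp
      · apply mem_union_right
        have : H.Adj v w := by
          have := C.par_adj v p.2 h.2.1
          rwa [h.2.2] at this
        rw [hK3, if_pos this]
        apply mem_union_left
        simp only [mem_filter, mem_univ, true_and]
        exact h
      · apply mem_union_right
        have : H.Adj v w := by
          have := C.par_adj w p.2 h.2.1
          rw [h.2.2] at this
          exact this.symm
        rw [hK3, if_pos this]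
        apply mem_union_right
        simp only [mem_filter, mem_univ, true_and]
        exact h
  have hcard : (C.S f).card ≤ (C.S f').card + (K1.card + K2.card + K3.card) :=
    (card_le_card hsub).trans ((card_union_le _ _).trans
      (Nat.add_le_add_left ((card_union_le _ _).trans
        (Nat.add_le_add_right (card_union_le _ _) _)) _))
  have k3 : K3.card ≤ 2 := by
    rw [hK3]
    split_ifs
    · exact (card_union_le _ _).trans (Nat.add_le_add (tgt_card v w) (tgt_card w v))
    · simp
  have k1 : K1.card ≤ 2 := by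
    rw [hK1]
    split_ifs
    · exact card_le_two
    · simp
  have k2 : K2.card ≤ 2 := by
    rw [hK2]
    split_ifs
    · exact card_le_two
    · simp
  by_cases hv : C.useful v c
  · by_cases hw : C.useful w c
    · by_cases hH : H.Adj v w
      · have := D_double hnone hH hv hw
        rw [← hf'] at this
        omega
      · have k3' : K3.card = 0 := by rw [hK3, if_neg hH]; simp
        omega
    · have k2' : K2.card = 0 := by rw [hK2, if_neg hw]; simp
      omega
  · have k1' : K1.card = 0 := by rw [hK1, if_neg hv]; simp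
    omega

/-- Bob's move -/
theorem step_target {f : Sym2 V → Option (Fin k)} {v : V} {c : Fin k} (hp : (v, c) ∈ C.S f) :
    Legal G f s(v, C.par v c) c ∧
    (C.S f).card + 3 * (C.D f).card + 4 ≤
      (C.S (Function.update f s(v, C.par v c) (some c))).card +
        3 * (C.D (Function.update f s(v, C.par v c) (some c))).card := by
  have hp0 := hp
  rw [mem_S] at hp0
  obtain ⟨h1, h2, h3, h4⟩ := hp0
  simp only at h1 h2 h3 h4
  have hadj := C.par_adj v c h1
  have hu := C.par_useful v c h1
  have hpp := C.par_par v c h1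
  refine ⟨legal_of_not_used (C.le _ _ hadj) h4 h2 h3, ?_⟩
  set w := C.par v c with hw
  have hD := D_double (C := C) (c := c) h4 hadj h1 hu
  have hsub : C.S f ⊆ C.S (Function.update f s(v, w) (some c)) ∪ {(v, c), (w, c)} := by
    intro p hp
    by_cases hp' : p ∈ C.S (Function.update f s(v, w) (some c))
    · exact mem_union_left _ hp'
    · apply mem_union_right
      rcases S_loss hp hp' with ⟨h, _⟩ | ⟨h, _⟩ | ⟨h, _⟩ | ⟨h, _⟩ | h | h
      · rw [h]; simp
      · rw [h]; simp
      · rw [h, ← hw]; simp
      · rw [h, hpp]; simp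
      · have : p.2 = c := C.par_inj v _ _ h.2.1 h1 (by rw [h.2.2])
        have hpe : p = (v, c) := Prod.ext h.1 this
        rw [hpe]; simp
      · have : p.2 = c := C.par_inj w _ _ h.2.1 hu (by rw [h.2.2, hpp])
        have hpe : p = (w, c) := Prod.ext h.1 this
        rw [hpe]; simp
  have h5 : (C.S f).card ≤ (C.S (Function.update f s(v, w) (some c))).card + 2 :=
    (card_le_card hsub).trans ((card_union_le _ _).trans (Nat.add_le_add_left card_le_two _))
  omega

omit [Fintype V] in
theorem proper_update {f : Sym2 V → Option (Fin k)} {e : Sym2 V} {c : Fin k} (hL : Legal G f e c)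
    (hP : Proper G f) : Proper G (Function.update f e (some c)) := by
  induction e using Sym2.ind with
  | _ v w =>
  obtain ⟨hnv, hnw⟩ := hL.not_used
  intro x y y' d hy hy' h1 h2
  by_cases e1 : s(x, y) = s(v, w)
  · by_cases e2 : s(x, y') = s(v, w)
    · exact Sym2.congr_right.1 (e1.trans e2.symm)
    · exfalso
      rw [e1, Function.update_self] at h1
      rw [Function.update_of_ne e2] at h2
      have hd : c = d := Option.some_injective _ h1
      subst hd
      rcases Sym2.eq_iff.1 e1 with ⟨rfl, _⟩ | ⟨rfl, _⟩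
      · exact hnv ⟨y', hy', h2⟩
      · exact hnw ⟨y', hy', h2⟩
  · by_cases e2 : s(x, y') = s(v, w)
    · exfalso
      rw [e2, Function.update_self] at h2
      rw [Function.update_of_ne e1] at h1
      have hd : c = d := Option.some_injective _ h2
      subst hd
      rcases Sym2.eq_iff.1 e2 with ⟨rfl, _⟩ | ⟨rfl, _⟩
      · exact hnv ⟨y, hy, h1⟩
      · exact hnw ⟨y, hy, h1⟩
    · rw [Function.update_of_ne e1] at h1
      rw [Function.update_of_ne e2] at h2
      exact hP x y y' d hy hy' h1 h2

/-- counting useful pairs in a complete colouring -/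
theorem final_count {f : Sym2 V → Option (Fin k)} (hP : Proper G f)
    (hall : ∀ e ∈ G.edgeSet, f e ≠ none) : C.A.card + (C.D f).card ≤ 2 * C.U.card := by
  set A1 : Finset (V × V) := C.A.filter (fun p => ∃ c, f s(p.1, p.2) = some c ∧ C.useful p.1 c) with hA1
  set A2 : Finset (V × V) := C.A.filter (fun p => ∃ c, f s(p.1, p.2) = some c ∧ C.useful p.2 c) with hA2
  have hunion : A1 ∪ A2 = C.A := by
    ext p
    rw [mem_union, hA1, hA2, mem_filter, mem_filter]
    constructor
    · rintro (h | h) <;> exact h.1
    · intro hp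
      have hH : H.Adj p.1 p.2 := by simpa [Cert.A] using hp
      have hne := hall s(p.1, p.2) (by simpa using C.le _ _ hH)
      obtain ⟨c, hc⟩ := Option.ne_none_iff_exists'.1 hne
      rcases C.cover p.1 p.2 c hH with h | h
      · exact Or.inl ⟨hp, c, hc, h⟩
      · exact Or.inr ⟨hp, c, hc, h⟩
  have hinter : C.D f ⊆ A1 ∩ A2 := by
    intro p hp
    rw [mem_D] at hp
    obtain ⟨h1, c, h2, h3, h4⟩ := hp
    have hA : p ∈ C.A := by simpa [Cert.A] using h1
    rw [mem_inter, hA1, hA2, mem_filter, mem_filter]
    exact ⟨⟨hA, c, h2, h3⟩, ⟨hA, c, h2, h4⟩⟩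
  have hswap : A2.card ≤ A1.card := by
    apply card_le_card_of_injOn Prod.swap
    · intro p hp
      have hp' : p ∈ A2 := hp
      rw [hA2, mem_filter] at hp'
      obtain ⟨h1, c, h2, h3⟩ := hp'
      have hH : H.Adj p.1 p.2 := by simpa [Cert.A] using h1
      show p.swap ∈ A1
      rw [hA1, mem_filter]
      refine ⟨by simpa [Cert.A] using hH.symm, c, ?_, h3⟩
      rw [← h2]
      exact congrArg f Sym2.eq_swap
    · exact fun _ _ _ _ h => Prod.swap_injective h
  have hA1U : A1.card ≤ C.U.card := by
    by_cases hk : A1 = ∅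
    · rw [hk]; simp
    have hc0 : ∀ p ∈ A1, ∃ c, f s(p.1, p.2) = some c ∧ C.useful p.1 c := fun p hp => by
      rw [hA1, mem_filter] at hp
      exact hp.2
    have hne : Nonempty (Fin k) := by
      obtain ⟨p, hp⟩ := nonempty_iff_ne_empty.2 hk
      exact ⟨(hc0 p hp).choose⟩
    choose! g hg using fun p : V × V => fun hp : p ∈ A1 => hc0 p hp
    apply card_le_card_of_injOn (fun p => (p.1, g p))
    · intro p hp
      have := hg p hp
      show (p.1, g p) ∈ C.U
      simpa [Cert.U] using this.2
    · intro p hp q hq hpq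
      have hp1 : p ∈ A1 := hp
      have hq1 : q ∈ A1 := hq
      have h1 := (hg p hp1).1
      have h2 := (hg q hq1).1
      rw [hA1, mem_filter] at hp1 hq1
      have hHp : H.Adj p.1 p.2 := by simpa [Cert.A] using hp1.1
      have hHq : H.Adj q.1 q.2 := by simpa [Cert.A] using hq1.1
      have e1 : p.1 = q.1 := (Prod.mk.inj hpq).1
      have e2 : g p = g q := (Prod.mk.inj hpq).2
      rw [← e1] at h2 hHq
      rw [← e2] at h2
      exact Prod.ext e1 (hP p.1 p.2 q.2 (g p) (C.le _ _ hHp) (C.le _ _ hHq) h1 h2)
  have h1 := card_union_add_card_inter A1 A2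
  have h2 := card_le_card hinter
  rw [hunion] at h1
  omega

/-- Bob wins if there is a certificate with few useful pairs. -/
theorem not_aliceWins_aux (hlt : 5 * C.U.card + 4 < 3 * C.A.card) {t : Bool}
    {f : Sym2 V → Option (Fin k)} (hw : AliceWins G k t f) : Proper G f →
    (t = true → C.U.card ≤ (C.S f).card + 3 * (C.D f).card ∨ C.U.card ≤ 3 * (C.D f).card + 4) →
    (t = false → C.U.card ≤ (C.S f).card + 3 * (C.D f).card + 4) → False := by
  induction hw with
  | done t f hall =>
    intro hP h1 h2
    have hS : (C.S f).card = 0 := by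
      rw [card_eq_zero, eq_empty_iff_forall_notMem]
      intro p hp
      rw [mem_S] at hp
      exact hall s(p.1, C.par p.1 p.2)
        (by simpa using C.le _ _ (C.par_adj _ _ hp.1)) hp.2.2.2
    have hfin := final_count (C := C) hP hall
    have h3 : C.U.card ≤ 3 * (C.D f).card + 4 := by
      cases t with
      | true => have := h1 rfl; omega
      | false => have := h2 rfl; omega
    omega
  | alice f e c hL _ ih =>
    intro hP h1 _
    have hstep := step_any (C := C) hL
    have hD := card_le_card (D_mono (C := C) (c := c) hL.2.1)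
    refine ih (proper_update hL hP) (fun h => absurd h (by simp)) (fun _ => ?_)
    have := h1 rfl
    omega
  | bob f hex hall ih =>
    intro hP _ h2
    have h2' := h2 rfl
    by_cases hS : (C.S f).Nonempty
    · obtain ⟨⟨v, c⟩, hp⟩ := hS
      obtain ⟨hL, hstep⟩ := step_target hp
      refine ih _ _ hL (proper_update hL hP) (fun _ => Or.inl ?_) (fun h => absurd h (by simp))
      omega
    · obtain ⟨e, c, hL⟩ := hex
      have hD := card_le_card (D_mono (C := C) (c := c) hL.2.1)
      rw [not_nonempty_iff_eq_empty] at hS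
      refine ih _ _ hL (proper_update hL hP) (fun _ => Or.inr ?_) (fun h => absurd h (by simp))
      rw [hS] at h2'
      simp only [card_empty] at h2'
      omega

theorem U_le {N : ℕ} (h : ∀ v, ((univ : Finset (Fin k)).filter (fun c => C.useful v c)).card ≤ N) :
    C.U.card ≤ Fintype.card V * N := by
  rw [Cert.U, card_filter, Fintype.sum_prod_type, ← card_univ, ← smul_eq_mul]
  apply sum_le_card_nsmul
  intro v _
  rw [← card_filter]
  exact h v

theorem A_eq {N : ℕ} (h : ∀ v, ((univ : Finset V).filter (fun w => H.Adj v w)).card = N) :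
    C.A.card = Fintype.card V * N := by
  rw [Cert.A, card_filter, Fintype.sum_prod_type, ← card_univ, ← smul_eq_mul]
  apply sum_eq_card_nsmul
  intro v _
  rw [← card_filter]
  exact h v

theorem not_aliceWins (C : Cert G H k) (hlt : 5 * C.U.card + 4 < 3 * C.A.card) :
    ¬ AliceWins G k true (fun _ => none) := by
  intro hw
  refine not_aliceWins_aux hlt hw ?_ (fun _ => Or.inl ?_) (fun h => absurd h (by simp))
  · intro v w w' c _ _ h _
    simp at h
  · refine (card_le_card ?_).trans (Nat.le_add_right _ _)
    intro p hp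
    have hu : C.useful p.1 p.2 := by simpa [Cert.U] using hp
    rw [mem_S]
    refine ⟨hu, ?_, ?_, rfl⟩
    · rintro ⟨w, _, h⟩
      simp at h
    · rintro ⟨w, _, h⟩
      simp at h

end

end EG
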