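import Mathlib

/-!
# The edge colouring game: definitions

A position is a partial colouring `f : Sym2 V → Option (Fin k)` (`none` = not coloured).
-/

set_option autoImplicit false

namespace EG

open Classical in
/-- In the position `f` the edge `e` of `G` is uncoloured and may be given the colour `c`: no edge of
`G` which shares a vertex with `e` has the colour `c`. -/
def Legal {V : Type} (G : SimpleGraph V) {k : ℕ} (f : Sym2 V → Option (Fin k)) (e : Sym2 V)
    (c : Fin k) : Prop :=
  e ∈ G.edgeSet ∧ f e = none ∧ ∀ e' ∈ G.edgeSet, (∃ v, v ∈ e ∧ v ∈ e') → f e' ≠ some c

open Classical in
/-- `AliceWins G k t f`: starting from the position `f`, with Alice to move if `t = true` and Bob to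
move if `t = false`, Alice can force that all edges of `G` get coloured. (If not all edges are
coloured and the player to move has no legal move, Alice has not won.) -/
inductive AliceWins {V : Type} (G : SimpleGraph V) (k : ℕ) :
    Bool → (Sym2 V → Option (Fin k)) → Prop
  | done (t : Bool) (f : Sym2 V → Option (Fin k)) :
      (∀ e ∈ G.edgeSet, f e ≠ none) → AliceWins G k t f
  | alice (f : Sym2 V → Option (Fin k)) (e : Sym2 V) (c : Fin k) : Legal G f e c →
      AliceWins G k false (Function.update f e (some c)) → AliceWins G k true f
  | bob (f : Sym2 V → Option (Fin k)) : (∃ e c, Legal G f e c) →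
      (∀ e c, Legal G f e c → AliceWins G k true (Function.update f e (some c))) →
      AliceWins G k false f

/-- The game chromatic index of `G`: the least number `k` of colours for which Alice, who moves
first, has a winning strategy in the edge colouring game on `G`. -/
noncomputable def gameChromaticIndex {V : Type} (G : SimpleGraph V) : ℕ :=
  sInf {k : ℕ | AliceWins G k true fun _ => none}

end EG
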