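import Pool.Agent.H80.EG.Cert

/-!
# The blow-up of the Kneser graph

Vertices: pairs `(x, a)`, `x` an `m`-subset of `Fin (2m+1)`, `a` in the abelian group
`ZMod 2 × ZMod b`. `(x, a)` and `(z, a')` are adjacent in `HG` if `x ∩ z = ∅`. `GG` has in addition
an `r`-regular bipartite graph on every class `{x} × (ZMod 2 × ZMod b)`.
-/

set_option autoImplicit false

namespace EG

open Finset

/-- the `m`-subsets of `Fin (2m+1)` -/
abbrev KS (m : ℕ) : Type := {x : Finset (Fin (2 * m + 1)) // x.card = m}

/-- the vertices -/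
abbrev KV (m b : ℕ) : Type := KS m × (ZMod 2 × ZMod b)

/-- the blow-up of the Kneser graph -/
def HG (m b : ℕ) (hm : 0 < m) : SimpleGraph (KV m b) where
  Adj v w := Disjoint v.1.1 w.1.1
  symm := ⟨fun _ _ h => Disjoint.symm h⟩
  loopless := ⟨fun v h => by
    have h1 : v.1.1 = ∅ := disjoint_self.1 h
    have h2 := v.1.2
    rw [h1] at h2
    simp at h2
    omega⟩

/-- the bipartite graph in a class: `(0, a)` is adjacent to `(1, a + s)`, `s ∈ R` -/
def RAdj {b : ℕ} (R : Finset (ZMod b)) (p q : ZMod 2 × ZMod b) : Prop :=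
  (p.1 = 0 ∧ q.1 = 1 ∧ q.2 - p.2 ∈ R) ∨ (p.1 = 1 ∧ q.1 = 0 ∧ p.2 - q.2 ∈ R)

/-- the graph -/
def GG (m b : ℕ) (hm : 0 < m) (R : Finset (ZMod b)) : SimpleGraph (KV m b) where
  Adj v w := Disjoint v.1.1 w.1.1 ∨ (v.1 = w.1 ∧ RAdj R v.2 w.2)
  symm := ⟨by
    rintro v w (h | ⟨h1, h2⟩)
    · exact Or.inl h.symm
    · refine Or.inr ⟨h1.symm, ?_⟩
      rcases h2 with ⟨a, b, c⟩ | ⟨a, b, c⟩
      · exact Or.inr ⟨b, a, c⟩
      · exact Or.inl ⟨b, a, c⟩⟩
  loopless := ⟨by
    rintro v (h | ⟨_, h2⟩)
    · have h1 : v.1.1 = ∅ := disjoint_self.1 h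
      have h2 := v.1.2
      rw [h1] at h2
      simp at h2
      omega
    · rcases h2 with ⟨a, b, _⟩ | ⟨a, b, _⟩
      · rw [a] at b; exact absurd b (by decide)
      · rw [a] at b; exact absurd b (by decide)⟩

/-- the partner of `x` for the type `i ∉ x`: the complement of `x ∪ {i}` -/
def prt {m : ℕ} (x : KS m) (i : Fin (2 * m + 1)) : KS m :=
  if h : i ∈ x.1 then x else ⟨(insert i x.1)ᶜ, by
    rw [card_compl, card_insert_of_notMem h, x.2, Fintype.card_fin]; omega⟩

theorem prt_val {m : ℕ} {x : KS m} {i : Fin (2 * m + 1)} (h : i ∉ x.1) :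
    (prt x i).1 = (insert i x.1)ᶜ := by
  rw [prt, dif_neg h]

theorem notMem_prt {m : ℕ} {x : KS m} {i : Fin (2 * m + 1)} (h : i ∉ x.1) : i ∉ (prt x i).1 := by
  rw [prt_val h]; simp

theorem prt_prt {m : ℕ} {x : KS m} {i : Fin (2 * m + 1)} (h : i ∉ x.1) : prt (prt x i) i = x := by
  apply Subtype.ext
  rw [prt_val (notMem_prt h), prt_val h]
  ext j
  simp only [mem_compl, mem_insert, not_or, not_and, not_not]
  constructor
  · rintro ⟨h1, h2⟩
    exact h2 h1
  · intro hj
    exact ⟨fun e => h (e ▸ hj), fun _ => hj⟩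

theorem disj_prt {m : ℕ} {x : KS m} {i : Fin (2 * m + 1)} (h : i ∉ x.1) : Disjoint x.1 (prt x i).1 := by
  rw [prt_val h, disjoint_left]
  intro j hj
  simp [hj]

theorem prt_inj {m : ℕ} {x : KS m} {i j : Fin (2 * m + 1)} (hi : i ∉ x.1) (hj : j ∉ x.1)
    (h : prt x i = prt x j) : i = j := by
  have h1 := congrArg Subtype.val h
  rw [prt_val hi, prt_val hj, compl_inj_iff] at h1
  have h2 : i ∈ insert j x.1 := by rw [← h1]; exact mem_insert_self _ _
  rcases mem_insert.1 h2 with h3 | h3
  · exact h3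
  · exact absurd h3 hi

/-- The certificate: `τ c` is the type and `σ c` the shift of the colour `c`. -/
def kcert {m b k : ℕ} (hm : 0 < m) (R : Finset (ZMod b)) (τ : Fin k → Fin (2 * m + 1))
    (σ : Fin k → ZMod 2 × ZMod b) (hinj : ∀ c d, τ c = τ d → σ c = σ d → c = d) :
    Cert (GG m b hm R) (HG m b hm) k where
  le _ _ h := Or.inl h
  useful v c := τ c ∉ v.1.1
  cover v w c h := by
    by_contra hc
    push Not at hc
    exact (disjoint_left.1 h) hc.1 hc.2
  par v c := (prt v.1 (τ c), σ c - v.2)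
  par_adj _ _ h := disj_prt h
  par_useful _ _ h := notMem_prt h
  par_par v c h := by
    apply Prod.ext
    · exact prt_prt h
    · show σ c - (σ c - v.2) = v.2
      abel
  par_inj v c d hc hd h := by
    have h1 := (Prod.mk.inj h).1
    have h2 := (Prod.mk.inj h).2
    exact hinj c d (prt_inj hc hd h1) (sub_left_injective h2)

section

variable {m b : ℕ}

/-- the number of sets disjoint from a given one -/
theorem card_disj (x : KS m) :
    ((univ : Finset (KS m)).filter (fun z => Disjoint x.1 z.1)).card = m + 1 := by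
  have h1 : ((univ : Finset (KS m)).filter (fun z => Disjoint x.1 z.1)).map
      (Function.Embedding.subtype _) = powersetCard m (x.1ᶜ) := by
    ext z
    simp only [mem_map, mem_filter, mem_univ, true_and, Function.Embedding.coe_subtype,
      mem_powersetCard, Subtype.exists, exists_and_right, exists_eq_right]
    constructor
    · rintro ⟨hz, hd⟩
      refine ⟨fun j hj => ?_, hz⟩
      rw [mem_compl]
      exact fun hx => disjoint_left.1 hd hx hj
    · rintro ⟨hs, hz⟩
      refine ⟨hz, ?_⟩
      rw [disjoint_left]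
      intro j hj hj'
      exact mem_compl.1 (hs hj') hj
  rw [← card_map, h1, card_powersetCard, card_compl, x.2, Fintype.card_fin]
  have : 2 * m + 1 - m = m + 1 := by omega
  rw [this, Nat.choose_succ_self_right]

variable [NeZero b]

theorem card_zz : Fintype.card (ZMod 2 × ZMod b) = 2 * b := by
  rw [Fintype.card_prod, ZMod.card, ZMod.card]

open Classical in
/-- degrees in the blow-up -/
theorem deg_HG (hm : 0 < m) (v : KV m b) :
    ((univ : Finset (KV m b)).filter (fun w => (HG m b hm).Adj v w)).card = (m + 1) * (2 * b) := by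
  have h1 : (univ : Finset (KV m b)).filter (fun w => (HG m b hm).Adj v w) =
      ((univ : Finset (KS m)).filter (fun z => Disjoint v.1.1 z.1)) ×ˢ
        (univ : Finset (ZMod 2 × ZMod b)) := by
    ext w
    simp [HG]
  rw [h1, card_product, card_disj, card_univ, card_zz]

omit [NeZero b] in
theorem zmod2 (s : ZMod 2) : s = 0 ∨ s = 1 := by
  revert s; decide

open Classical in
/-- degrees in the bipartite graph -/
theorem deg_R (R : Finset (ZMod b)) (p : ZMod 2 × ZMod b) :
    ((univ : Finset (ZMod 2 × ZMod b)).filter (fun q => RAdj R p q)).card = R.card := by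
  rcases zmod2 p.1 with hp | hp
  · symm
    apply card_bij (fun s _ => ((1 : ZMod 2), p.2 + s))
    · intro s hs
      simp only [mem_filter, mem_univ, true_and]
      exact Or.inl ⟨hp, rfl, by simpa using hs⟩
    · intro s _ s' _ h
      exact add_left_cancel (Prod.mk.inj h).2
    · intro q hq
      simp only [mem_filter, mem_univ, true_and] at hq
      rcases hq with ⟨_, h2, h3⟩ | ⟨h1, _, _⟩
      · exact ⟨q.2 - p.2, h3, Prod.ext h2.symm (by simp)⟩
      · rw [hp] at h1; exact absurd h1 (by decide)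
  · symm
    apply card_bij (fun s _ => ((0 : ZMod 2), p.2 - s))
    · intro s hs
      simp only [mem_filter, mem_univ, true_and]
      exact Or.inr ⟨hp, rfl, by simpa using hs⟩
    · intro s _ s' _ h
      exact sub_right_injective (Prod.mk.inj h).2
    · intro q hq
      simp only [mem_filter, mem_univ, true_and] at hq
      rcases hq with ⟨h1, _, _⟩ | ⟨_, h2, h3⟩
      · rw [hp] at h1; exact absurd h1 (by decide)
      · exact ⟨p.2 - q.2, h3, Prod.ext h2.symm (by simp)⟩

open Classical in
/-- degrees in `GG` -/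
theorem deg_GG (hm : 0 < m) (R : Finset (ZMod b)) (v : KV m b) :
    ((GG m b hm R).neighborSet v).ncard = (m + 1) * (2 * b) + R.card := by
  have h1 : (GG m b hm R).neighborSet v =
      (((univ : Finset (KV m b)).filter (fun w => (HG m b hm).Adj v w)) ∪
        ((univ : Finset (ZMod 2 × ZMod b)).filter (fun q => RAdj R v.2 q)).map
          ⟨fun q => (v.1, q), fun _ _ h => (Prod.mk.inj h).2⟩ : Finset (KV m b)) := by
    ext w
    simp only [SimpleGraph.mem_neighborSet, GG, HG, coe_union, Set.mem_union, coe_filter, mem_univ,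
      true_and, Set.mem_ofPred_eq, coe_map, Function.Embedding.coeFn_mk, Set.mem_image]
    constructor
    · rintro (h | ⟨h1, h2⟩)
      · exact Or.inl h
      · exact Or.inr ⟨w.2, h2, Prod.ext h1 rfl⟩
    · rintro (h | ⟨q, h1, h2⟩)
      · exact Or.inl h
      · right
        rw [← h2]
        exact ⟨rfl, h1⟩
  rw [h1, Set.ncard_coe_finset, card_union_of_disjoint, card_map, deg_HG, deg_R]
  rw [disjoint_left]
  intro w hw hw'
  simp only [mem_filter, mem_univ, true_and, HG, mem_map, Function.Embedding.coeFn_mk] at hw hw'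
  obtain ⟨q, _, rfl⟩ := hw'
  have h1 : v.1.1 = ∅ := disjoint_self.1 hw
  have h2 := v.1.2
  rw [h1] at h2
  simp at h2
  omega

end

end EG
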