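import Pool.Agent.H80.EG.Kneser

/-!
# Regular graphs with game chromatic index at least `(6/5 - ε) Δ`
-/

set_option autoImplicit false

namespace EG

open Finset

section

variable {V : Type} [Fintype V]

open Classical in
/-- With very many colours Alice wins. -/
theorem aliceWins_of_large (G : SimpleGraph V) {k : ℕ} (hk : Fintype.card (Sym2 V) < k) :
    ∀ (n : ℕ) (t : Bool) (f : Sym2 V → Option (Fin k)),
      ((univ : Finset (Sym2 V)).filter (fun e => e ∈ G.edgeSet ∧ f e = none)).card ≤ n →
      AliceWins G k t f := by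
  -- a colour which is not used
  have hcol : ∀ f : Sym2 V → Option (Fin k), ∃ c : Fin k, ∀ e, f e ≠ some c := by
    intro f
    by_contra hc
    push Not at hc
    choose g hg using hc
    have hinj : Function.Injective g := by
      intro c d h
      have h1 := hg c
      rw [h, hg d] at h1
      exact (Option.some_injective _ h1).symm
    have := Fintype.card_le_of_injective g hinj
    rw [Fintype.card_fin] at this
    omega
  have hdec : ∀ (f : Sym2 V → Option (Fin k)) (e : Sym2 V) (c : Fin k), Legal G f e c →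
      ((univ : Finset (Sym2 V)).filter
        (fun e' => e' ∈ G.edgeSet ∧ Function.update f e (some c) e' = none)).card <
      ((univ : Finset (Sym2 V)).filter (fun e => e ∈ G.edgeSet ∧ f e = none)).card := by
    intro f e c hL
    apply card_lt_card
    rw [ssubset_iff_of_subset]
    · refine ⟨e, ?_, ?_⟩
      · simp only [mem_filter, mem_univ, true_and]
        exact ⟨hL.1, hL.2.1⟩
      · simp
    · intro e' he'
      simp only [mem_filter, mem_univ, true_and] at he' ⊢
      refine ⟨he'.1, ?_⟩
      by_cases h : e' = e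
      · rw [h]; exact hL.2.1
      · rw [Function.update_of_ne h] at he'
        exact he'.2
  intro n
  induction n with
  | zero =>
    intro t f hf
    apply AliceWins.done
    intro e he hn
    rw [Nat.le_zero, card_eq_zero, filter_eq_empty_iff] at hf
    exact hf (mem_univ e) ⟨he, hn⟩
  | succ n ih =>
    intro t f hf
    by_cases hall : ∀ e ∈ G.edgeSet, f e ≠ none
    · exact AliceWins.done _ _ hall
    push Not at hall
    obtain ⟨e, he, hn⟩ := hall
    obtain ⟨c, hc⟩ := hcol f
    have hL : Legal G f e c := ⟨he, hn, fun e' _ _ => hc e'⟩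
    cases t with
    | true =>
      refine AliceWins.alice f e c hL (ih _ _ ?_)
      have := hdec f e c hL
      omega
    | false =>
      refine AliceWins.bob f ⟨e, c, hL⟩ (fun e' c' hL' => ih _ _ ?_)
      have := hdec f e' c' hL'
      omega

theorem aliceWins_index (G : SimpleGraph V) :
    AliceWins G (gameChromaticIndex G) true (fun _ => none) := by
  have : {k : ℕ | AliceWins G k true fun _ => none}.Nonempty := by
    classical
    exact ⟨Fintype.card (Sym2 V) + 1, aliceWins_of_large G (Nat.lt_succ_self _) _ _ _ le_rfl⟩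
  exact Nat.sInf_mem this

end

section

variable {m b : ℕ} [NeZero b]

open Classical in
/-- Bob wins on the blow-up of the Kneser graph if there are too few colours. -/
theorem kneser_bound (hm : 4 ≤ m) (R : Finset (ZMod b)) {k : ℕ}
    (hk : 5 * ((k + 2 * m) / (2 * m + 1)) < 6 * b) :
    ¬ AliceWins (GG m b (by omega) R) k true (fun _ => none) := by
  set κ := (k + 2 * m) / (2 * m + 1) with hκ
  have hdiv : ∀ c : Fin k, c.val / (2 * m + 1) < κ := by
    intro c
    rw [hκ, Nat.lt_div_iff_mul_lt (by omega)]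
    have h1 := Nat.div_mul_le_self c.val (2 * m + 1)
    have h2 := c.2
    have h3 : (2 * m + 1) * (c.val / (2 * m + 1)) = c.val / (2 * m + 1) * (2 * m + 1) := by ring
    omega
  have e : (ZMod 2 × ZMod b) ≃ Fin (2 * b) :=
    Fintype.equivFinOfCardEq card_zz
  set τ : Fin k → Fin (2 * m + 1) := fun c => ⟨c.val % (2 * m + 1), Nat.mod_lt _ (by omega)⟩ with hτ
  set σ : Fin k → ZMod 2 × ZMod b := fun c =>
    e.symm ⟨c.val / (2 * m + 1), by have := hdiv c; omega⟩ with hσ
  have hinj : ∀ c d, τ c = τ d → σ c = σ d → c = d := by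
    intro c d h1 h2
    have h3 : c.val % (2 * m + 1) = d.val % (2 * m + 1) := congrArg Fin.val h1
    have h4 : c.val / (2 * m + 1) = d.val / (2 * m + 1) := congrArg Fin.val (e.symm.injective h2)
    apply Fin.ext
    rw [← Nat.div_add_mod c.val (2 * m + 1), ← Nat.div_add_mod d.val (2 * m + 1), h3, h4]
  set C := kcert (m := m) (b := b) (by omega) R τ σ hinj with hC
  apply not_aliceWins C
  -- the number of colours of a given type
  have hfib : ∀ i : Fin (2 * m + 1), ((univ : Finset (Fin k)).filter (fun c => τ c = i)).card ≤ κ := by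
    intro i
    rw [← card_range κ]
    apply card_le_card_of_injOn (fun c => c.val / (2 * m + 1))
    · intro c _
      simpa using hdiv c
    · intro c hc d hd h
      have hc' : τ c = i := by simpa using hc
      have hd' : τ d = i := by simpa using hd
      apply Fin.ext
      have h3 : c.val % (2 * m + 1) = d.val % (2 * m + 1) := congrArg Fin.val (hc'.trans hd'.symm)
      have h4 : c.val / (2 * m + 1) = d.val / (2 * m + 1) := h
      rw [← Nat.div_add_mod c.val (2 * m + 1), ← Nat.div_add_mod d.val (2 * m + 1), h3, h4]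
  have hU : C.U.card ≤ Fintype.card (KV m b) * ((m + 1) * κ) := by
    apply U_le
    intro v
    have h1 : ((univ : Finset (Fin k)).filter (fun c => C.useful v c)).card =
        ∑ i ∈ v.1.1ᶜ, (((univ : Finset (Fin k)).filter (fun c => C.useful v c)).filter
          (fun c => τ c = i)).card := by
      apply card_eq_sum_card_fiberwise
      intro c hc
      have hc' : τ c ∉ v.1.1 := by simpa [hC, kcert] using hc
      exact mem_coe.2 (mem_compl.2 hc')
    rw [h1]
    have h2 : (v.1.1ᶜ).card = m + 1 := by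
      rw [card_compl, v.1.2, Fintype.card_fin]; omega
    refine (sum_le_card_nsmul _ _ κ fun i _ => ?_).trans (by rw [h2, smul_eq_mul])
    refine (card_le_card ?_).trans (hfib i)
    intro c hc
    simp only [mem_filter, mem_univ, true_and] at hc ⊢
    exact hc.2
  have hA : C.A.card = Fintype.card (KV m b) * ((m + 1) * (2 * b)) := by
    apply A_eq
    intro v
    exact deg_HG (by omega) v
  have hn : 1 ≤ Fintype.card (KV m b) := by
    have : Nonempty (KV m b) := by
      obtain ⟨x, _, hx⟩ := Finset.exists_subset_card_eq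
        (s := (univ : Finset (Fin (2 * m + 1)))) (n := m) (by simp; omega)
      exact ⟨(⟨x, hx⟩, (0, 0))⟩
    exact Fintype.card_pos
  have h6 : 5 * κ + 1 ≤ 6 * b := hk
  have h7 : Fintype.card (KV m b) * ((m + 1) * (5 * κ + 1)) ≤
      Fintype.card (KV m b) * ((m + 1) * (6 * b)) :=
    Nat.mul_le_mul_left _ (Nat.mul_le_mul_left _ h6)
  have h8 : 1 * (m + 1) ≤ Fintype.card (KV m b) * (m + 1) := Nat.mul_le_mul_right _ hn
  rw [hA]
  calc 5 * C.U.card + 4 < 5 * (Fintype.card (KV m b) * ((m + 1) * κ)) + 1 * (m + 1) := by omega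
    _ ≤ 5 * (Fintype.card (KV m b) * ((m + 1) * κ)) + Fintype.card (KV m b) * (m + 1) := by omega
    _ = Fintype.card (KV m b) * ((m + 1) * (5 * κ + 1)) := by ring
    _ ≤ Fintype.card (KV m b) * ((m + 1) * (6 * b)) := h7
    _ = 3 * (Fintype.card (KV m b) * ((m + 1) * (2 * b))) := by ring

end

/-- Main theorem. -/
theorem six_fifths (ε : ℝ) (hε : 0 < ε) : ∃ D₀ : ℕ, ∀ D : ℕ, D₀ ≤ D →
    ∃ (V : Type) (_ : Fintype V) (_ : Nonempty V) (G : SimpleGraph V),
      (∀ v, (G.neighborSet v).ncard = D) ∧ (6 / 5 - ε) * D ≤ gameChromaticIndex G := by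
  obtain ⟨m0, hm0⟩ := exists_nat_gt (6 / (5 * ε))
  set m := m0 + 4 with hm
  have hm4 : 4 ≤ m := by omega
  have hmε : (3 / 5 : ℝ) ≤ ε / 2 * (m + 1) := by
    have h1 : 6 / (5 * ε) < (m : ℝ) + 1 := by
      rw [hm]; push_cast; linarith
    rw [div_lt_iff₀ (by positivity)] at h1
    nlinarith
  obtain ⟨d0, hd0⟩ := exists_nat_gt ((6 / 5 * (2 * m + 1) + 2 * m) * (2 / ε))
  refine ⟨max d0 (2 * (m + 1) * (2 * (m + 1))), fun D hD => ?_⟩
  have hD1 : d0 ≤ D := (le_max_left _ _).trans hD
  have hD2 : 2 * (m + 1) * (2 * (m + 1)) ≤ D := (le_max_right _ _).trans hD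
  set b := D / (2 * (m + 1)) with hb
  set r := D % (2 * (m + 1)) with hr
  have hDbr : 2 * (m + 1) * b + r = D := Nat.div_add_mod D (2 * (m + 1))
  have hrlt : r < 2 * (m + 1) := Nat.mod_lt _ (by omega)
  have hbge : 2 * (m + 1) ≤ b := by
    rw [hb, Nat.le_div_iff_mul_le (by omega)]; exact hD2
  have : NeZero b := ⟨by omega⟩
  obtain ⟨R, _, hR⟩ := Finset.exists_subset_card_eq (s := (univ : Finset (ZMod b))) (n := r)
    (by rw [card_univ, ZMod.card]; omega)
  have hne : Nonempty (KV m b) := by
    obtain ⟨x, _, hx⟩ := Finset.exists_subset_card_eq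
      (s := (univ : Finset (Fin (2 * m + 1)))) (n := m) (by simp; omega)
    exact ⟨(⟨x, hx⟩, (0, 0))⟩
  refine ⟨KV m b, inferInstance, hne, GG m b (by omega) R, fun v => ?_, ?_⟩
  · rw [deg_GG, hR, ← hDbr]; ring
  · set k := gameChromaticIndex (GG m b (by omega) R) with hk
    have hA := aliceWins_index (GG m b (by omega) R)
    rw [← hk] at hA
    have h1 : ¬ 5 * ((k + 2 * m) / (2 * m + 1)) < 6 * b := fun h => kneser_bound hm4 R h hA
    have h2 : 6 * b ≤ 5 * ((k + 2 * m) / (2 * m + 1)) := not_lt.1 h1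
    have h3 : 6 * b * (2 * m + 1) ≤ 5 * (k + 2 * m) := by
      calc 6 * b * (2 * m + 1) ≤ 5 * ((k + 2 * m) / (2 * m + 1)) * (2 * m + 1) :=
            Nat.mul_le_mul_right _ h2
        _ = 5 * ((k + 2 * m) / (2 * m + 1) * (2 * m + 1)) := by ring
        _ ≤ 5 * (k + 2 * m) := Nat.mul_le_mul_left _ (Nat.div_mul_le_self _ _)
    have h3' : (6 * b * (2 * m + 1) : ℝ) ≤ 5 * (k + 2 * m) := by exact_mod_cast h3
    have h4 : (2 * (m + 1) * b + r : ℝ) = D := by exact_mod_cast hDbr
    have h5 : (r : ℝ) ≤ 2 * m + 1 := by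
      have : r ≤ 2 * m + 1 := by omega
      exact_mod_cast this
    have h6 : (6 / 5 * (2 * m + 1) + 2 * m : ℝ) ≤ ε / 2 * D := by
      have h7 : ((6 / 5 * (2 * m + 1) + 2 * m) * (2 / ε) : ℝ) ≤ D :=
        hd0.le.trans (by exact_mod_cast hD1)
      rw [mul_div_assoc', div_le_iff₀ hε] at h7
      linarith
    have hb0 : (0 : ℝ) ≤ b := Nat.cast_nonneg _
    have hr0 : (0 : ℝ) ≤ r := Nat.cast_nonneg _
    have h8 : (3 / 5 : ℝ) * (2 * b) ≤ ε / 2 * D := by
      have h9 : (3 / 5 : ℝ) * (2 * b) ≤ ε / 2 * (m + 1) * (2 * b) :=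
        mul_le_mul_of_nonneg_right hmε (by positivity)
      have h10 : ε / 2 * (m + 1) * (2 * b) ≤ ε / 2 * D := by
        rw [← h4, mul_assoc]
        apply mul_le_mul_of_nonneg_left _ (by positivity)
        nlinarith
      exact h9.trans h10
    nlinarith

end EG
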