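import Pool.Agent.H80.EG.Main

/-!
For every `ε > 0` and every large `D` there is a `D`-regular graph whose game chromatic index is at
least `(6/5 - ε) D`: a blow-up of the Kneser graph `K(2m+1, m)`, with a graph of bounded degree
added inside the classes.
-/

set_option autoImplicit false

namespace EG

theorem six_fifths_statement : ∀ ε : ℝ, 0 < ε → ∃ D₀ : ℕ, ∀ D : ℕ, D₀ ≤ D →
    ∃ (V : Type) (_ : Fintype V) (_ : Nonempty V) (G : SimpleGraph V),
      (∀ v, (G.neighborSet v).ncard = D) ∧ (6 / 5 - ε) * D ≤ gameChromaticIndex G :=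
  six_fifths

end EG
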